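import Pool.Agent.H82.RD.Targets

/-!
# Row DLA: a determinant whose columns are combinations with small coefficients
-/

set_option autoImplicit false

namespace Pool.Agent.H37.RD

open Pool.Agent.H82.RD

theorem det_expand {R : Type} [CommRing R] {κ I : Type} [Fintype κ] [DecidableEq κ] [Fintype I]
    (G : κ → I → R) (C : I → κ → R) :
    (Matrix.of fun i j => ∑ c, G i c * C c j).det =
      ∑ f : κ → I, (∏ j, C (f j) j) * (Matrix.of fun j i => G i (f j)).det := by
  classical
  rw [← Matrix.det_transpose]
  have h2 : (Matrix.of fun i j => ∑ c, G i c * C c j).transpose =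
      Matrix.of (fun j => ∑ c, C c j • (fun i => G i c)) := by
    ext j i
    simp [Finset.sum_apply, mul_comm]
  rw [h2]
  show Matrix.detRowAlternating (fun j => ∑ c, C c j • (fun i => G i c)) = _
  rw [← AlternatingMap.coe_multilinearMap, MultilinearMap.map_sum]
  apply Finset.sum_congr rfl
  intro f _
  rw [MultilinearMap.map_smul_univ]
  rfl

theorem pf_DLA : T_DLA := by
  intro R _ ϖ κ I _ _ _ G C om de N hC hf
  classical
  rw [det_expand]
  apply Finset.dvd_sum
  intro f _
  by_cases hinj : Function.Injective f
  · apply Dvd.dvd.mul_right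
    have h1 : (∏ j, ϖ ^ (om (f j) - de j)) ∣ ∏ j, C (f j) j :=
      Finset.prod_dvd_prod_of_dvd _ _ (fun j _ => hC (f j) j)
    rw [Finset.prod_pow_eq_pow_sum] at h1
    refine (pow_dvd_pow ϖ ?_).trans h1
    have h2 := hf f hinj
    have h3 : ∑ j, om (f j) ≤ ∑ j, (om (f j) - de j) + ∑ j, de j := by
      rw [← Finset.sum_add_distrib]
      exact Finset.sum_le_sum (fun j _ => by omega)
    omega
  · have h0 : (Matrix.of fun j i => G i (f j)).det = 0 := by
      unfold Function.Injective at hinj
      push Not at hinj
      obtain ⟨a, b, hab, hne⟩ := hinj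
      exact Matrix.det_zero_of_row_eq hne (funext fun i => by
        show G i (f a) = G i (f b)
        rw [hab])
    rw [h0, mul_zero]
    exact dvd_zero _

end Pool.Agent.H37.RD
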