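import Pool.Agent.H82.RD.Targets
import Pool.Agent.H82.RD.Basic

/-!
# Row DXY: multiplication by `y_j`
-/

set_option autoImplicit false

namespace Pool.Agent.H37.RD

open Pool.Agent.H82.RD

theorem pf_DXY : T_DXY := by
  intro R _ ϖ E Jm K v y z d i φ j h
  classical
  obtain ⟨C, hC, hφ⟩ := h
  obtain ⟨e, he1, he0, hes⟩ : ∃ e : Fin v → ℕ, e j = 1 ∧ (∀ l, l ≠ j → e l = 0) ∧
      ∑ l, e l = 1 := by
    refine ⟨fun l => if l = j then 1 else 0, if_pos rfl, fun l hl => if_neg hl, ?_⟩
    rw [Finset.sum_ite_eq' Finset.univ j (fun _ => 1), if_pos (Finset.mem_univ j)]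
  refine ⟨fun c J => if c j = 0 then 0 else C (c - e) J, ?_, ?_⟩
  · intro c J
    show ϖ ^ (J - i) ∣ (if c j = 0 then 0 else C (c - e) J)
    split_ifs
    · exact dvd_zero _
    · exact hC _ _
  · intro k
    have hsum : ∑ c ∈ Sx v (d + 1), ∑ J ∈ Finset.range Jm,
        (if c j = 0 then 0 else C (c - e) J) *
          ((∏ l, y k l ^ c l) * ((z k).choose J : R)) =
        y k j * ∑ c ∈ Sx v d, ∑ J ∈ Finset.range Jm,
          C c J * ((∏ l, y k l ^ c l) * ((z k).choose J : R)) := by
      rw [Finset.mul_sum]
      symm
      apply Finset.sum_of_injOn (fun c => c + e)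
      · intro c _ c' _ hcc
        exact add_right_cancel hcc
      · intro c hc
        have hc' : ∑ l, c l ≤ d := mem_Sx.1 hc
        show c + e ∈ Sx v (d + 1)
        rw [mem_Sx]
        simp only [Pi.add_apply, Finset.sum_add_distrib]
        omega
      · intro c hc hne
        apply Finset.sum_eq_zero
        intro J _
        by_cases h0 : c j = 0
        · rw [if_pos h0, zero_mul]
        · exfalso
          apply hne
          have hle : e ≤ c := by
            intro l
            by_cases hl : l = j
            · subst hl
              rw [he1]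
              exact Nat.one_le_iff_ne_zero.2 h0
            · rw [he0 l hl]
              exact Nat.zero_le _
          refine ⟨c - e, ?_, tsub_add_cancel_of_le hle⟩
          have hc' : ∑ l, c l ≤ d + 1 := mem_Sx.1 hc
          show c - e ∈ (Sx v d : Set (Fin v → ℕ))
          rw [Finset.mem_coe, mem_Sx]
          have h3 : ∑ l, c l = ∑ l, (c - e + e) l := by
            rw [tsub_add_cancel_of_le hle]
          simp only [Pi.add_apply, Finset.sum_add_distrib] at h3
          omega
      · intro c _
        rw [Finset.mul_sum]
        apply Finset.sum_congr rfl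
        intro J _
        have h1 : (c + e) j ≠ 0 := by
          rw [Pi.add_apply, he1]
          omega
        have h2 : (c + e) - e = c := add_tsub_cancel_right _ _
        show _ = (if (c + e) j = 0 then 0 else C ((c + e) - e) J) *
          ((∏ l, y k l ^ (c + e) l) * ((z k).choose J : R))
        rw [if_neg h1, h2]
        have h3 : ∏ l, y k l ^ (c + e) l = (∏ l, y k l ^ c l) * y k j := by
          simp only [Pi.add_apply, pow_add, Finset.prod_mul_distrib]
          rw [Fintype.prod_eq_single (f := fun l => y k l ^ e l) j, he1, pow_one]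
          intro l hl
          rw [he0 l hl, pow_zero]
        rw [h3]
        ring
    show ϖ ^ E ∣ y k j * φ k - ∑ c ∈ Sx v (d + 1), ∑ J ∈ Finset.range Jm,
        (if c j = 0 then 0 else C (c - e) J) *
          ((∏ l, y k l ^ c l) * ((z k).choose J : R))
    rw [hsum, ← mul_sub]
    exact Dvd.dvd.mul_left (hφ k) _

end Pool.Agent.H37.RD
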